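import Pool.Agent.H190R3.WeiCard

/-!
The set-cofinality of the Weihrauch degrees (MP_62990a_lc).

`Problem` is the type of partial multi-valued functions on Baire space (`sol x` is the set of
admissible outputs at `x`, the domain consists of the points having one), preordered by Weihrauch
reducibility; the computable partial functionals are the ones induced by computable monotone word
functions.  `Degree` is the partial order of Weihrauch degrees.

Every total single-valued function which is reducible to a problem `g` is determined by the two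
functionals of the reduction, so only countably many of them lie below `g`.
-/

set_option autoImplicit false

namespace Pool.Agent.Results.MP_62990a_lc.SetCofinality

open Set Cardinal Pool.Agent.H190R3.Wei

/-- The total single-valued problem given by a function on Baire space. -/
def graphProblem (F : (ℕ → ℕ) → (ℕ → ℕ)) : Problem where
  sol x := {F x}

/-- A total function is determined by a reduction to `g`. -/
theorem red_unique {F G : (ℕ → ℕ) → (ℕ → ℕ)} {g : Problem} {φ ψ : List ℕ → List ℕ}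
    (hF : Red φ ψ (graphProblem F) g) (hG : Red φ ψ (graphProblem G) g) : F = G := by
  funext x
  obtain ⟨y, hy, ⟨z, hz⟩, h1⟩ := hF x ⟨F x, rfl⟩
  obtain ⟨y', hy', -, h2⟩ := hG x ⟨G x, rfl⟩
  have hyy : y = y' := Maps.unique hy hy'
  subst hyy
  obtain ⟨w, hw, hw'⟩ := h1 z hz
  obtain ⟨v, hv, hv'⟩ := h2 z hz
  have h3 : w = F x := hw
  have h4 : v = G x := hv
  rw [← h3, ← h4]
  exact Maps.unique hw' hv'

theorem mk_total : #((ℕ → ℕ) → (ℕ → ℕ)) = 2 ^ (𝔠 : Cardinal.{0}) := by
  rw [← Cardinal.power_def, mk_baire, Cardinal.power_self_eq Cardinal.aleph0_le_continuum]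

theorem mk_degree_le : #Degree ≤ 2 ^ (𝔠 : Cardinal.{0}) := by
  have h1 : #Degree ≤ #Problem := Cardinal.mk_le_of_surjective
    (f := toAntisymmetrization (· ≤ ·)) (by
      intro d; exact ⟨ofAntisymmetrization (· ≤ ·) d, by simp⟩)
  have h2 : #Problem ≤ #((ℕ → ℕ) → Set (ℕ → ℕ)) :=
    Cardinal.mk_le_of_injective (f := Problem.sol) (fun f g h => Problem.ext h)
  have h3 : #((ℕ → ℕ) → Set (ℕ → ℕ)) = 2 ^ 𝔠 := by
    rw [← Cardinal.power_def, Cardinal.mk_set, mk_baire, ← Cardinal.power_mul,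
      Cardinal.mul_eq_self Cardinal.aleph0_le_continuum]
  exact (h1.trans h2).trans h3.le

theorem two_power_le {S : Set Degree} (hS : ∀ d : Degree, ∃ e ∈ S, d ≤ e) :
    2 ^ (𝔠 : Cardinal.{0}) ≤ #S := by
  classical
  have hex : ∀ F : (ℕ → ℕ) → (ℕ → ℕ), ∃ p : S × {φ : List ℕ → List ℕ // IsMachine φ} ×
      {φ : List ℕ → List ℕ // IsMachine φ},
      Red p.2.1.1 p.2.2.1 (graphProblem F) (ofAntisymmetrization (· ≤ ·) p.1.1) := by
    intro F
    obtain ⟨e, he, hle⟩ := hS (toAntisymmetrization (· ≤ ·) (graphProblem F))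
    have h1 : graphProblem F ≤ ofAntisymmetrization (· ≤ ·) e := by
      rw [← toAntisymmetrization_le_toAntisymmetrization_iff]
      simpa using hle
    obtain ⟨φ, ψ, hφ, hψ, hr⟩ := le_def.1 h1
    exact ⟨(⟨e, he⟩, ⟨φ, hφ⟩, ⟨ψ, hψ⟩), hr⟩
  choose p hp using hex
  have hinj : Function.Injective p := by
    intro F G hFG
    have h1 := hp F
    rw [hFG] at h1
    exact red_unique h1 (hp G)
  have h1 := Cardinal.mk_le_of_injective hinj
  rw [mk_total, Cardinal.mk_prod, Cardinal.mk_prod] at h1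
  simp only [Cardinal.lift_id] at h1
  have h2 : #{φ : List ℕ → List ℕ // IsMachine φ} ≤ ℵ₀ := Cardinal.mk_le_aleph0
  have h3 : #S * (#{φ : List ℕ → List ℕ // IsMachine φ} * #{φ : List ℕ → List ℕ // IsMachine φ}) ≤
      #S * ℵ₀ := by
    refine mul_le_mul' le_rfl ?_
    exact (mul_le_mul' h2 h2).trans Cardinal.aleph0_mul_aleph0.le
  have h4 : 2 ^ (𝔠 : Cardinal.{0}) ≤ #S * ℵ₀ := h1.trans h3
  have h5 : ℵ₀ < 2 ^ (𝔠 : Cardinal.{0}) := Cardinal.aleph0_lt_continuum.trans (Cardinal.cantor _)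
  have h6 : #S * ℵ₀ ≤ max (max (#S) ℵ₀) ℵ₀ := Cardinal.mul_le_max _ _
  rcases le_or_gt (#S) ℵ₀ with h7 | h7
  · exfalso
    rw [max_eq_right h7, max_self] at h6
    exact absurd (h4.trans h6) (not_le.2 h5)
  · rw [max_eq_left h7.le, max_eq_left h7.le] at h6
    exact h4.trans h6

/-- Every cofinal set of Weihrauch degrees has cardinality `2 ^ 𝔠`; in particular the least
cardinality of a cofinal set is `2 ^ 𝔠`. -/
theorem result :
    -- Weihrauch reducibility, spelled out
    (∀ f g : Problem, f ≤ g ↔ ∃ φ ψ : List ℕ → List ℕ, IsMachine φ ∧ IsMachine ψ ∧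
      ∀ x, (f.sol x).Nonempty → ∃ y, Maps φ x y ∧ (g.sol y).Nonempty ∧
        ∀ z ∈ g.sol y, ∃ w ∈ f.sol x, Maps ψ (pair x z) w) ∧
    (∀ S : Set Degree, (∀ d : Degree, ∃ e ∈ S, d ≤ e) → #S = 2 ^ (𝔠 : Cardinal.{0})) ∧
    sInf {κ : Cardinal.{0} | ∃ S : Set Degree, (∀ d : Degree, ∃ e ∈ S, d ≤ e) ∧ #S = κ} =
      2 ^ (𝔠 : Cardinal.{0}) := by
  have main : ∀ S : Set Degree, (∀ d : Degree, ∃ e ∈ S, d ≤ e) →
      #S = 2 ^ (𝔠 : Cardinal.{0}) := fun S hS =>
    le_antisymm ((Cardinal.mk_set_le S).trans mk_degree_le) (two_power_le hS)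
  refine ⟨fun f g => Iff.rfl, main, ?_⟩
  have hset : {κ : Cardinal.{0} | ∃ S : Set Degree, (∀ d : Degree, ∃ e ∈ S, d ≤ e) ∧ #S = κ} =
      {2 ^ (𝔠 : Cardinal.{0})} := by
    ext κ
    constructor
    · rintro ⟨S, hS, rfl⟩
      exact main S hS
    · rintro rfl
      exact ⟨Set.univ, fun d => ⟨d, Set.mem_univ _, le_rfl⟩,
        main _ (fun d => ⟨d, Set.mem_univ _, le_rfl⟩)⟩
  rw [hset, csInf_singleton]

end Pool.Agent.Results.MP_62990a_lc.SetCofinality
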